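import Pool.Agent.Helper25.FN.Spec

set_option autoImplicit false

/-!
# Swarm FN, part SEP: separation
-/

namespace Pool.Agent.Helper13.FN.SEP

open MeasureTheory
open scoped ContDiff
open Pool.Agent.Helper25.FN
open Pool.Agent.Helper25.FB.Inj (Entire)

lemma nm_nonneg {n : ℕ} (z : V n) : 0 ≤ nm z := Real.sqrt_nonneg _

lemma norm_le_nm {n : ℕ} (z : V n) : ‖z‖ ≤ nm z := by
  rw [pi_norm_le_iff_of_nonneg (nm_nonneg z)]
  intro j
  unfold nm
  apply Real.le_sqrt_of_sq_le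
  exact Finset.single_le_sum (f := fun j => ‖z j‖ ^ 2) (fun _ _ => sq_nonneg _) (Finset.mem_univ j)

lemma wd_zero {n : ℕ} (j : Fin n) : wd j (fun _ : V n => (0 : ℂ)) = fun _ => 0 := by
  funext z
  unfold wd
  have h : fderiv ℝ (fun _ : V n => (0 : ℂ)) z = 0 := by
    simp
  rw [h]
  simp

lemma Nop_zero {n : ℕ} (l : ℝ) : Nop l (fun _ : V n => (0 : ℂ)) = fun _ => 0 := by
  funext z
  unfold Nop
  simp [wd_zero]

/-- iterated inversion of `Nop l` -/
lemma iter (hJOP : S_JOP) {n : ℕ} {P : Pol n} {A η : ℝ} {Φ : V n → ℝ} (hA : 0 < A)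
    (hW : Wt P A η Φ) {l : ℝ} (hl : 1 ≤ l) {s : ℤ} {D : V n → ℂ} (hD : Gr Φ s D) :
    ∀ i : ℕ, 1 ≤ ((s : ℝ) - i) + l → ∃ R : V n → ℂ, Gr Φ (s - i) R ∧ (Nop l)^[i] R = D := by
  intro i
  induction i with
  | zero =>
    intro _
    exact ⟨D, by simpa using hD, rfl⟩
  | succ i ih =>
    intro h
    push_cast at h
    obtain ⟨R, hR, hR'⟩ := ih (by linarith)
    obtain ⟨U, hU, hU'⟩ := hJOP n P A η Φ hA hW l hl (s - i) (by push_cast; linarith) R hR
    refine ⟨U, ?_, ?_⟩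
    · have : s - ((i + 1 : ℕ) : ℤ) = s - i - 1 := by push_cast; ring
      rw [this]
      exact hU
    · rw [Function.iterate_succ_apply]
      have : Nop l U = R := funext hU'
      rw [this, hR']

/-- products of functions of moderate growth are integrable -/
lemma integ {n : ℕ} {Φ : V n → ℝ} (hΦ : Continuous Φ) {s : ℤ} {k : ℕ} {R q : V n → ℂ}
    (hR : Gr Φ s R) (hq : Sym k q) (h : 2 * s + k ≤ -(2 * n + 1 : ℤ)) :
    Integrable (fun z => R z * starRingEnd ℂ (R z) * (q z * wc Φ z)) := by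
  obtain ⟨hRe, C, hC⟩ := hR
  obtain ⟨hqc, hq0⟩ := hq
  obtain ⟨C', hC'⟩ := hq0 0
  have hRc : Continuous R := Differentiable.continuous hRe
  have hwc : Continuous (wc Φ) := by
    unfold wc wt
    exact Complex.continuous_ofReal.comp (Real.continuous_exp.comp (continuous_const.mul hΦ))
  have hcont : Continuous fun z => R z * starRingEnd ℂ (R z) * (q z * wc Φ z) :=
    (hRc.mul (Complex.continuous_conj.comp hRc)).mul (hqc.continuous.mul hwc)
  have hint : Integrable (fun z : V n => (1 + ‖z‖) ^ (-(2 * n + 1 : ℝ))) := by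
    apply integrable_one_add_norm
    have : Module.finrank ℝ (V n) = 2 * n := by
      rw [Module.finrank_pi_fintype]
      simp [Complex.finrank_real_complex, mul_comm]
    rw [this]
    push_cast
    linarith
  refine (hint.const_mul (C ^ 2 * |C'|)).mono' hcont.aestronglyMeasurable
    (Filter.Eventually.of_forall fun z => ?_)
  have h1 : 0 < 1 + nm z := by linarith [nm_nonneg z]
  have h2 : ‖q z‖ ≤ |C'| * (1 + nm z) ^ (k : ℤ) := by
    have h3 := hC' z
    rw [norm_iteratedFDeriv_zero] at h3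
    refine h3.trans ?_
    have h4 : ((k : ℤ) - (0 : ℕ)) = (k : ℤ) := by simp
    rw [h4]
    exact mul_le_mul_of_nonneg_right (le_abs_self _) (by positivity)
  have h5 : ‖wc Φ z‖ = Real.exp (-2 * Φ z) := by
    unfold wc wt
    rw [Complex.norm_real, Real.norm_of_nonneg (Real.exp_pos _).le]
  rw [norm_mul, norm_mul, norm_mul, RCLike.norm_conj, h5]
  have h6 : ‖R z‖ * ‖R z‖ ≤ (C * (1 + nm z) ^ s * Real.exp (Φ z)) *
      (C * (1 + nm z) ^ s * Real.exp (Φ z)) :=
    mul_le_mul (hC z) (hC z) (norm_nonneg _) ((norm_nonneg _).trans (hC z))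
  have h7 : ‖q z‖ * Real.exp (-2 * Φ z) ≤ |C'| * (1 + nm z) ^ (k : ℤ) * Real.exp (-2 * Φ z) :=
    mul_le_mul_of_nonneg_right h2 (Real.exp_pos _).le
  refine (mul_le_mul h6 h7 (by positivity) (mul_self_nonneg _)).trans ?_
  have h8 : (C * (1 + nm z) ^ s * Real.exp (Φ z)) * (C * (1 + nm z) ^ s * Real.exp (Φ z)) *
      (|C'| * (1 + nm z) ^ (k : ℤ) * Real.exp (-2 * Φ z)) =
      C ^ 2 * |C'| * (1 + nm z) ^ (2 * s + k) := by
    have e1 : Real.exp (Φ z) * Real.exp (Φ z) * Real.exp (-2 * Φ z) = 1 := by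
      rw [← Real.exp_add, ← Real.exp_add]
      simp
      ring
    have e2 : (1 + nm z) ^ (2 * s + (k : ℤ)) = (1 + nm z) ^ s * (1 + nm z) ^ s *
        (1 + nm z) ^ (k : ℤ) := by
      rw [← zpow_add₀ h1.ne', ← zpow_add₀ h1.ne']
      congr 1
      ring
    rw [e2]
    calc _ = C ^ 2 * |C'| * ((1 + nm z) ^ s * (1 + nm z) ^ s * (1 + nm z) ^ (k : ℤ)) *
        (Real.exp (Φ z) * Real.exp (Φ z) * Real.exp (-2 * Φ z)) := by ring
      _ = _ := by rw [e1, mul_one]
  rw [h8]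
  refine mul_le_mul_of_nonneg_left ?_ (by positivity)
  have h9 : (1 : ℝ) ≤ 1 + nm z := by linarith [nm_nonneg z]
  refine (zpow_le_zpow_right₀ h9 h).trans ?_
  have h10 : (1 + ‖z‖) ^ (-(2 * n + 1 : ℝ)) = (1 + ‖z‖) ^ (-(2 * n + 1 : ℤ)) := by
    rw [← Real.rpow_intCast]
    push_cast
    rfl
  rw [h10, zpow_neg, zpow_neg]
  have h11 : (0 : ℝ) < 1 + ‖z‖ := by positivity
  have h12 : ((2 * n + 1 : ℤ)) = ((2 * n + 1 : ℕ) : ℤ) := by push_cast; rfl
  rw [h12, zpow_natCast, zpow_natCast]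
  exact inv_anti₀ (by positivity) (pow_le_pow_left₀ h11.le (by linarith [norm_le_nm z]) _)

theorem main (hNPOS : S_NPOS) (hIBPN : S_IBPN) (hJOP : S_JOP) (hGR2 : S_GR2) (hSYM2 : S_SYM2) :
    S_SEP := by
  intro n s t
  -- the number of steps
  obtain ⟨k, hk1, hk2⟩ : ∃ k : ℕ, s - k ≤ t ∧ 2 * (s - k) + k ≤ -(2 * n + 1 : ℤ) := by
    refine ⟨(s - t).toNat + (2 * s + 2 * n + 1).toNat, ?_, ?_⟩
    · have h1 := Int.self_le_toNat (s - t)
      push_cast
      omega
    · have h1 := Int.self_le_toNat (2 * s + 2 * n + 1)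
      push_cast
      omega
  obtain ⟨η, hη, hη'⟩ := hNPOS k
  refine ⟨η, hη, fun P A Φ hA hW D hD horth => ?_⟩
  obtain ⟨l₀, hl₀⟩ := hη' n P A Φ hA hW
  obtain ⟨l, hl1, hl2, hl3⟩ : ∃ l : ℝ, l₀ ≤ l ∧ 1 ≤ l ∧ 1 ≤ ((s : ℝ) - k) + l :=
    ⟨max l₀ (max 1 (1 - ((s : ℝ) - k))), le_max_left _ _,
      (le_max_left _ _).trans (le_max_right _ _), by
        have := (le_max_right (1 : ℝ) (1 - ((s : ℝ) - k))).trans (le_max_right l₀ _)
        linarith⟩
  obtain ⟨-, q, hq, hqN, hqpos⟩ := hl₀ l hl1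
  have hsym : Sym 1 (fun z => (Φ z : ℂ)) := hSYM2 n Φ hW.smooth hW.hom
  obtain ⟨R, hR, hRD⟩ := iter hJOP hA hW hl2 hD k hl3
  have hRt : Gr Φ t R := (hGR2 n Φ hW.smooth hsym).2.2.2.1 (s - k) t R hk1 hR
  have h1 := horth R hRt
  have h2 := hIBPN n Φ hW.smooth hsym l k (s - k) (s - k) R R hR hR (by linarith)
  rw [hRD, h1] at h2
  have h3 : (fun z => R z * starRingEnd ℂ (R z) * ((Nt l)^[k] (wc Φ)) z) =
      fun z => R z * starRingEnd ℂ (R z) * (q z * wc Φ z) := funext fun z => by rw [hqN]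
  rw [h3] at h2
  have hint := integ hW.smooth.continuous hR hq hk2
  have hre : ∀ z, (R z * starRingEnd ℂ (R z) * (q z * wc Φ z)).re =
      ‖R z‖ ^ 2 * ((q z).re * wt Φ z) := by
    intro z
    rw [Complex.mul_conj, Complex.normSq_eq_norm_sq, Complex.re_ofReal_mul]
    unfold wc
    rw [Complex.re_mul_ofReal]
  have hwpos : ∀ z, 0 < wt Φ z := fun z => Real.exp_pos _
  have h4 : ∫ z, ‖R z‖ ^ 2 * ((q z).re * wt Φ z) = 0 := by
    have h5 := integral_re hint
    have h6 : ∫ z, (RCLike.re (R z * starRingEnd ℂ (R z) * (q z * wc Φ z)) : ℝ) =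
        ∫ z, ‖R z‖ ^ 2 * ((q z).re * wt Φ z) := integral_congr_ae
      (Filter.Eventually.of_forall fun z => hre z)
    rw [← h6, h5, ← h2]
    simp
  have hRc : Continuous R := Differentiable.continuous hR.1
  have hc : Continuous fun z => ‖R z‖ ^ 2 * ((q z).re * wt Φ z) := by
    refine (hRc.norm.pow 2).mul ((Complex.continuous_re.comp hq.1.continuous).mul ?_)
    unfold wt
    exact Real.continuous_exp.comp (continuous_const.mul hW.smooth.continuous)
  have hnn : 0 ≤ fun z => ‖R z‖ ^ 2 * ((q z).re * wt Φ z) := fun z =>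
    mul_nonneg (sq_nonneg _) (mul_nonneg (hqpos z).le (hwpos z).le)
  have hi2 : Integrable fun z => ‖R z‖ ^ 2 * ((q z).re * wt Φ z) := by
    refine hint.re.congr (Filter.Eventually.of_forall fun z => hre z)
  rw [integral_eq_zero_iff_of_nonneg hnn hi2] at h4
  have h5 := (Continuous.ae_eq_iff_eq volume hc continuous_zero).1 h4
  have h6 : R = fun _ => 0 := by
    funext z
    have h7 : ‖R z‖ ^ 2 * ((q z).re * wt Φ z) = 0 := congrFun h5 z
    have h8 : 0 < (q z).re * wt Φ z := mul_pos (hqpos z) (hwpos z)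
    rcases mul_eq_zero.1 h7 with h9 | h9
    · exact norm_eq_zero.1 (pow_eq_zero_iff (two_ne_zero)|>.1 h9)
    · exact absurd h9 h8.ne'
  intro z
  rw [← hRD, h6]
  have h7 : ∀ i : ℕ, (Nop l)^[i] (fun _ : V n => (0 : ℂ)) = fun _ => 0 := by
    intro i
    induction i with
    | zero => rfl
    | succ i ih => rw [Function.iterate_succ_apply, Nop_zero, ih]
  rw [h7]

end Pool.Agent.Helper13.FN.SEP
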